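import Mathlib

/-!
# Sequential labelings of `mK_{s,s}` for `m ≥ 3`, `s ≥ 3`

With `M = m - 1` and `c = M (s + 1) + 2 s - 2`: the copy `r ≤ M` gets the interval
`A r = a r + [0, s)` and the progression `B r = c - a r + s (J r)`, where the sets `J r` of size `s`
form a partition of `[0, m s)`. Here `a 0 = s - 2` and `a r = r (s + 1) + 2 s - 2` for `r ≥ 1`,
`J r = [2 + r s, 2 + (r + 1) s)` for `r ≤ M - 2`, `J (M - 1) = {1} ∪ [2 + (M - 1) s, M s]` and
`J M = {0} ∪ [M s + 1, M s + s)`.
-/

set_option autoImplicit false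

namespace Pool.Agent.K9h99.SQ

def A (s r j : ℕ) : ℕ := if r = 0 then (s - 2) + j else r * (s + 1) + (2 * s - 2) + j

def J (M s r k : ℕ) : ℕ :=
  if r = M then (if k = 0 then 0 else M * s + k)
  else if r + 1 = M then (if k = 0 then 1 else r * s + k + 1) else r * s + k + 2

def H (M s r : ℕ) : ℕ := (M - r) * (s + 1) + (if r = 0 then s else 0)

def B (M s r k : ℕ) : ℕ := H M s r + s * J M s r k

theorem sum_eq (M s r j k : ℕ) (hM : 2 ≤ M) (hs : 3 ≤ s) (hr : r ≤ M) :
    A s r j + B M s r k = (M * (s + 1) + 2 * s - 2) + s * J M s r k + j := by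
  obtain ⟨d, rfl⟩ : ∃ d, M = r + d := ⟨M - r, by omega⟩
  have e : r + d - r = d := by omega
  have e2 : (r + d) * (s + 1) = r * (s + 1) + d * (s + 1) := by ring
  by_cases h : r = 0
  · simp only [A, B, H, h, if_true]
    rw [h] at e2
    simp only [zero_add, zero_mul, Nat.sub_zero] at e2 ⊢
    omega
  · simp only [A, B, H, h, if_false, e]
    rw [e2]
    omega

/-- the shape of `J` -/
theorem J_main (M s r k : ℕ) (hr : r ≤ M) (hk : k < s) (hM : 2 ≤ M) (hs : 3 ≤ s) :
    (r = M ∧ k = 0 ∧ J M s r k = 0) ∨ (r + 1 = M ∧ k = 0 ∧ J M s r k = 1) ∨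
    (∃ κ, J M s r k = r * s + κ ∧ 1 ≤ κ ∧ κ ≤ s + 1 ∧ (r = M → κ = k ∧ κ + 1 ≤ s) ∧
      (r + 1 = M → κ = k + 1 ∧ κ ≤ s ∧ 2 ≤ κ) ∧ (r + 2 ≤ M → κ = k + 2)) := by
  unfold J
  by_cases h1 : r = M
  · by_cases h2 : k = 0
    · left; simp [h1, h2]
    · right; right
      refine ⟨k, by simp [h1, h2], by omega, by omega, fun _ => ⟨rfl, by omega⟩, fun h => by omega,
        fun h => by omega⟩
  · by_cases h3 : r + 1 = M
    · by_cases h2 : k = 0
      · right; left; simp [h1, h3, h2]
      · right; right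
        refine ⟨k + 1, by simp [h1, h3, h2]; ring, by omega, by omega, fun h => absurd h h1,
          fun _ => ⟨rfl, by omega, by omega⟩, fun h => by omega⟩
    · right; right
      refine ⟨k + 2, by simp [h1, h3]; ring, by omega, by omega, fun h => absurd h h1,
          fun h => absurd h h3, fun _ => rfl⟩

theorem J_inj (M s r k r' k' : ℕ) (hr : r ≤ M) (hk : k < s) (hr' : r' ≤ M) (hk' : k' < s)
    (hM : 2 ≤ M) (hs : 3 ≤ s) (h : J M s r k = J M s r' k') : r = r' ∧ k = k' := by
  have key : ∀ r r' κ κ' : ℕ, r < r' → r * s + κ = r' * s + κ' → κ ≤ s + 1 → 1 ≤ κ' →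
      (κ ≤ s ∨ 2 ≤ κ') → r + 1 = r' ∧ (κ = s + κ') := by
    intro r r' κ κ' h1 h2 h3 h4 h5
    obtain ⟨d, rfl⟩ : ∃ d, r' = r + 1 + d := ⟨r' - r - 1, by omega⟩
    have e : (r + 1 + d) * s = r * s + s + d * s := by ring
    rw [e] at h2
    have : d = 0 := by
      by_contra hd
      have : s ≤ d * s := Nat.le_mul_of_pos_left s (Nat.pos_of_ne_zero hd)
      omega
    subst this
    omega
  have hMs : 2 * s ≤ M * s := Nat.mul_le_mul_right s hM
  rcases J_main M s r k hr hk hM hs with ⟨a1, a2, a3⟩ | ⟨a1, a2, a3⟩ | ⟨κ, a1, a2, a3, a4, a5, a6⟩ <;>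
  rcases J_main M s r' k' hr' hk' hM hs with ⟨b1, b2, b3⟩ | ⟨b1, b2, b3⟩ | ⟨κ', b1, b2, b3, b4, b5, b6⟩
  · exact ⟨by omega, by omega⟩
  · omega
  · exfalso; rw [a3, b1] at h; omega
  · omega
  · exact ⟨by omega, by omega⟩
  · exfalso
    rw [a3, b1] at h
    rcases Nat.lt_trichotomy r' M with h1 | h1 | h1
    · rcases Nat.lt_or_ge (r' + 1) M with h2 | h2
      · have := b6 (by omega); omega
      · have := b5 (by omega); omega
    · rw [h1] at h; omega
    · omega
  · exfalso; rw [b3, a1] at h; omega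
  · exfalso
    rw [b3, a1] at h
    rcases Nat.lt_trichotomy r M with h1 | h1 | h1
    · rcases Nat.lt_or_ge (r + 1) M with h2 | h2
      · have := a6 (by omega); omega
      · have := a5 (by omega); omega
    · rw [h1] at h; omega
    · omega
  · rw [a1, b1] at h
    rcases Nat.lt_trichotomy r r' with h1 | h1 | h1
    · exfalso
      obtain ⟨h2, h3⟩ := key r r' κ κ' h1 h a3 b2 (by
        by_cases h2 : r' = M
        · by_cases h3 : r + 1 = M
          · left; exact (a5 h3).2.1
          · left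
            exfalso
            have := a6 (by omega)
            obtain ⟨h4, h5⟩ := b4 h2
            -- then the distance is at least two
            obtain ⟨d, rfl⟩ : ∃ d, r' = r + 2 + d := ⟨r' - r - 2, by omega⟩
            have e : (r + 2 + d) * s = r * s + 2 * s + d * s := by ring
            rw [e] at h
            omega
        · right
          by_cases h3 : r' + 1 = M
          · exact (b5 h3).2.2
          · have := b6 (by omega); omega)
      by_cases h4 : r' = M
      · have := a5 (by omega)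
        omega
      · by_cases h5 : r' + 1 = M
        · have := b5 h5
          omega
        · have := b6 (by omega)
          omega
    · subst h1
      have h2 : κ = κ' := by omega
      refine ⟨rfl, ?_⟩
      by_cases h3 : r = M
      · have := a4 h3; have := b4 h3; omega
      · by_cases h4 : r + 1 = M
        · have := a5 h4; have := b5 h4; omega
        · have := a6 (by omega); have := b6 (by omega); omega
    · exfalso
      obtain ⟨h2, h3⟩ := key r' r κ' κ h1 h.symm b3 a2 (by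
        by_cases h2 : r = M
        · by_cases h3 : r' + 1 = M
          · left; exact (b5 h3).2.1
          · left
            exfalso
            have := b6 (by omega)
            obtain ⟨h4, h5⟩ := a4 h2
            obtain ⟨d, rfl⟩ : ∃ d, r = r' + 2 + d := ⟨r - r' - 2, by omega⟩
            have e : (r' + 2 + d) * s = r' * s + 2 * s + d * s := by ring
            rw [e] at h
            omega
        · right
          by_cases h3 : r + 1 = M
          · exact (a5 h3).2.2
          · have := a6 (by omega); omega)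
      by_cases h4 : r = M
      · have := b5 (by omega)
        omega
      · by_cases h5 : r + 1 = M
        · have := a5 h5
          omega
        · have := a6 (by omega)
          omega

theorem J_lt (M s r k : ℕ) (hr : r ≤ M) (hk : k < s) (hM : 2 ≤ M) (hs : 3 ≤ s) :
    J M s r k < (M + 1) * s := by
  have hMs : 2 * s ≤ M * s := Nat.mul_le_mul_right s hM
  have e : (M + 1) * s = M * s + s := by ring
  rw [e]
  rcases J_main M s r k hr hk hM hs with ⟨a1, a2, a3⟩ | ⟨a1, a2, a3⟩ | ⟨κ, a1, a2, a3, a4, a5, a6⟩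
  · omega
  · omega
  · rw [a1]
    rcases Nat.lt_trichotomy r M with h1 | h1 | h1
    · rcases Nat.lt_or_ge (r + 1) M with h2 | h2
      · have : (r + 2) * s ≤ M * s := Nat.mul_le_mul_right s (by omega)
        have e2 : (r + 2) * s = r * s + 2 * s := by ring
        omega
      · have : (r + 1) * s ≤ M * s := Nat.mul_le_mul_right s (by omega)
        have e2 : (r + 1) * s = r * s + s := by ring
        have := a5 (by omega)
        omega
    · have := a4 h1
      rw [h1]; omega
    · omega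

theorem J_surj (M s y : ℕ) (hM : 2 ≤ M) (hs : 3 ≤ s) (hy : y < (M + 1) * s) :
    ∃ r k, r ≤ M ∧ k < s ∧ J M s r k = y := by
  classical
  -- by counting
  have hinj : Function.Injective (fun p : Fin (M + 1) × Fin s =>
      (⟨J M s p.1 p.2, J_lt M s p.1 p.2 (Nat.lt_succ_iff.1 p.1.2) p.2.2 hM hs⟩ : Fin ((M + 1) * s))) := by
    rintro ⟨a, b⟩ ⟨c, d⟩ h
    obtain ⟨h1, h2⟩ := J_inj M s a b c d (Nat.lt_succ_iff.1 a.2) b.2 (Nat.lt_succ_iff.1 c.2) d.2 hM hs
      (Fin.mk.inj_iff.1 h)
    exact Prod.ext (Fin.ext h1) (Fin.ext h2)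
  have hbij := (Fintype.bijective_iff_injective_and_card _).2 ⟨hinj, by simp⟩
  obtain ⟨⟨a, b⟩, h⟩ := hbij.2 ⟨y, hy⟩
  exact ⟨a, b, Nat.lt_succ_iff.1 a.2, b.2, Fin.mk.inj_iff.1 h⟩


theorem sq_ge (s : ℕ) (hs : 3 ≤ s) : 3 * s ≤ s * s := Nat.mul_le_mul_right s hs

/-- lower bound of the main part of `B` -/
theorem B_main (M s r κ k : ℕ) (hr : r ≤ M) (hJ : J M s r k = r * s + κ) :
    B M s r k = (M - r) * (s + 1) + (if r = 0 then s else 0) + r * (s * s) + s * κ := by
  rw [B, H, hJ]; ring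

theorem B_inj_main (M s r r' κ κ' : ℕ) (hr' : r' ≤ M) (hs : 3 ≤ s)
    (h1 : r < r') (h2 : κ ≤ s + 1) (h3 : 1 ≤ κ')
    (h : (M - r) * (s + 1) + (if r = 0 then s else 0) + r * (s * s) + s * κ =
      (M - r') * (s + 1) + (if r' = 0 then s else 0) + r' * (s * s) + s * κ') : False := by
  obtain ⟨d, rfl⟩ : ∃ d, r' = r + d := ⟨r' - r, by omega⟩
  have hd : 1 ≤ d := by omega
  obtain ⟨f, rfl⟩ : ∃ f, M = r + d + f := ⟨M - (r + d), by omega⟩
  have e1 : r + d + f - r = f + d := by omega
  have e2 : r + d + f - (r + d) = f := by omega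
  rw [e1, e2, if_neg (show r + d ≠ 0 by omega)] at h
  have e3 : (f + d) * (s + 1) = f * (s + 1) + d * s + d := by ring
  have e4 : (r + d) * (s * s) = r * (s * s) + s * (d * s) := by ring
  rw [e3, e4] at h
  obtain ⟨δ, hδ, hδ1⟩ : ∃ δ : ℕ, (if r = 0 then s else 0) = s * δ ∧ δ ≤ 1 := by
    by_cases h0 : r = 0
    · exact ⟨1, by simp [h0], le_rfl⟩
    · exact ⟨0, by simp [h0], by omega⟩
  rw [hδ] at h
  have h4 : d + s * (d + δ + κ) = s * (d * s + κ') := by
    have e5 : s * (d + δ + κ) = d * s + s * δ + s * κ := by ring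
    have e6 : s * (d * s + κ') = s * (d * s) + s * κ' := by ring
    omega
  have h5 : s ∣ d := by
    have h6 : s ∣ d + s * (d + δ + κ) := by rw [h4]; exact dvd_mul_right _ _
    exact (Nat.dvd_add_left (dvd_mul_right s _)).1 h6
  obtain ⟨e, rfl⟩ := h5
  have he : 1 ≤ e := by
    by_contra hcon
    have : e = 0 := by omega
    subst this
    simp at hd
  have h6 : e + (s * e + δ + κ) = s * e * s + κ' := by
    have h7 : s * (e + (s * e + δ + κ)) = s * (s * e * s + κ') := by
      rw [← h4]; ring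
    exact Nat.eq_of_mul_eq_mul_left (by omega) h7
  have h8 : 3 * (s * e) ≤ s * e * s := by
    rw [mul_comm (s * e) s]; exact Nat.mul_le_mul_right _ hs
  have h9 : s ≤ s * e := Nat.le_mul_of_pos_right s he
  have h10 : 3 * e ≤ s * e := Nat.mul_le_mul_right e hs
  -- `e + s e + δ + κ = s² e + κ'`, `s² e ≥ 3 s e`
  have h11 : e ≤ s * e := Nat.le_mul_of_pos_left e (by omega)
  -- need a finer bound
  have h12 : s * e * s = e * (s * s) := by ring
  have h13 : e * (s * s) ≥ e * (3 * s) := Nat.mul_le_mul_left e (sq_ge s hs)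
  have h14 : e * (3 * s) = 3 * (s * e) := by ring
  omega

theorem B_inj (M s r k r' k' : ℕ) (hr : r ≤ M) (hk : k < s) (hr' : r' ≤ M) (hk' : k' < s)
    (hM : 2 ≤ M) (hs : 3 ≤ s) (h : B M s r k = B M s r' k') : r = r' ∧ k = k' := by
  have hss := sq_ge s hs
  have small : ∀ r k κ : ℕ, r ≤ M → k < s → J M s r k = r * s + κ → 1 ≤ κ →
      (r = M → κ = k ∧ κ + 1 ≤ s) → (r + 1 = M → κ = k + 1 ∧ κ ≤ s ∧ 2 ≤ κ) →
      (r + 2 ≤ M → κ = k + 2) → 2 * s + 1 < B M s r k := by
    intro r k κ hr hk hJ h1 h4 h5 h6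
    rw [B_main M s r κ k hr hJ]
    have hκ : s ≤ s * κ := Nat.le_mul_of_pos_right s h1
    rcases Nat.lt_or_ge r M with h7 | h7
    · rcases Nat.lt_or_ge (r + 1) M with h8 | h8
      · have h9 : 2 * (s + 1) ≤ (M - r) * (s + 1) := Nat.mul_le_mul_right _ (by omega)
        omega
      · have h9 : M - r = 1 := by omega
        have h10 : 1 * (s * s) ≤ r * (s * s) := Nat.mul_le_mul_right _ (by omega)
        rw [h9]
        omega
    · have h10 : 2 * (s * s) ≤ r * (s * s) := Nat.mul_le_mul_right _ (by omega)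
      omega
  have z1 : ∀ r k : ℕ, r = M → k = 0 → J M s r k = 0 → B M s r k = 0 := by
    intro r k h1 h2 h3
    rw [B, H, h3, h1]
    simp
    omega
  have z2 : ∀ r k : ℕ, r + 1 = M → k = 0 → J M s r k = 1 → B M s r k = 2 * s + 1 := by
    intro r k h1 h2 h3
    rw [B, H, h3, if_neg (show r ≠ 0 by omega), show M - r = 1 by omega]
    ring
  rcases J_main M s r k hr hk hM hs with ⟨a1, a2, a3⟩ | ⟨a1, a2, a3⟩ | ⟨κ, a1, a2, a3, a4, a5, a6⟩ <;>
  rcases J_main M s r' k' hr' hk' hM hs with ⟨b1, b2, b3⟩ | ⟨b1, b2, b3⟩ | ⟨κ', b1, b2, b3, b4, b5, b6⟩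
  · exact ⟨by omega, by omega⟩
  · exfalso
    rw [z1 r k a1 a2 a3, z2 r' k' b1 b2 b3] at h; omega
  · exfalso
    rw [z1 r k a1 a2 a3] at h
    have := small r' k' κ' hr' hk' b1 b2 b4 b5 b6
    omega
  · exfalso
    rw [z2 r k a1 a2 a3, z1 r' k' b1 b2 b3] at h; omega
  · exact ⟨by omega, by omega⟩
  · exfalso
    rw [z2 r k a1 a2 a3] at h
    have := small r' k' κ' hr' hk' b1 b2 b4 b5 b6
    omega
  · exfalso
    rw [z1 r' k' b1 b2 b3] at h
    have := small r k κ hr hk a1 a2 a4 a5 a6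
    omega
  · exfalso
    rw [z2 r' k' b1 b2 b3] at h
    have := small r k κ hr hk a1 a2 a4 a5 a6
    omega
  · rw [B_main M s r κ k hr a1, B_main M s r' κ' k' hr' b1] at h
    rcases Nat.lt_trichotomy r r' with h1 | h1 | h1
    · exact (B_inj_main M s r r' κ κ' hr' hs h1 a3 b2 h).elim
    · subst h1
      have h2 : s * κ = s * κ' := by omega
      have h3 : κ = κ' := Nat.eq_of_mul_eq_mul_left (by omega) h2
      refine ⟨rfl, ?_⟩
      by_cases h3 : r = M
      · have := a4 h3; have := b4 h3; omega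
      · by_cases h4 : r + 1 = M
        · have := a5 h4; have := b5 h4; omega
        · have := a6 (by omega); have := b6 (by omega); omega
    · exact (B_inj_main M s r' r κ' κ hr hs h1 b3 a2 h.symm).elim

theorem A_inj (s r j r' j' : ℕ) (hj : j < s) (hj' : j' < s) (hs : 3 ≤ s)
    (h : A s r j = A s r' j') : r = r' ∧ j = j' := by
  have key : ∀ r j r' j' : ℕ, j < s → j' < s → r < r' → A s r j ≠ A s r' j' := by
    intro r j r' j' hj hj' h1 h
    unfold A at h
    have h2 : (r + 1) * (s + 1) ≤ r' * (s + 1) := Nat.mul_le_mul_right _ h1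
    have e : (r + 1) * (s + 1) = r * (s + 1) + s + 1 := by ring
    rw [if_neg (show r' ≠ 0 by omega)] at h
    by_cases h3 : r = 0
    · rw [if_pos h3] at h
      omega
    · rw [if_neg h3] at h
      omega
  rcases Nat.lt_trichotomy r r' with h1 | h1 | h1
  · exact absurd h (key r j r' j' hj hj' h1)
  · subst h1
    refine ⟨rfl, ?_⟩
    unfold A at h
    by_cases h3 : r = 0
    · rw [if_pos h3, if_pos h3] at h; omega
    · rw [if_neg h3, if_neg h3] at h; omega
  · exact absurd h.symm (key r' j' r j hj' hj h1)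

theorem A_le (M s r j : ℕ) (hr : r ≤ M) (hj : j < s) (hs : 3 ≤ s) :
    A s r j + 3 ≤ M * (s + 1) + 3 * s := by
  unfold A
  have h1 : r * (s + 1) ≤ M * (s + 1) := Nat.mul_le_mul_right _ hr
  by_cases h3 : r = 0
  · rw [if_pos h3]; omega
  · rw [if_neg h3]; omega

theorem A_ne_B (M s r j r' k : ℕ) (hr : r ≤ M) (hj : j < s) (hr' : r' ≤ M) (hk : k < s)
    (hM : 2 ≤ M) (hs : 3 ≤ s) : A s r j ≠ B M s r' k := by
  have hss := sq_ge s hs
  have hA := A_le M s r j hr hj hs
  intro h
  rcases J_main M s r' k hr' hk hM hs with ⟨b1, b2, b3⟩ | ⟨b1, b2, b3⟩ | ⟨κ, b1, b2, b3, b4, b5, b6⟩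
  · have h1 : B M s r' k = 0 := by
      rw [B, H, b3, b1]; simp; omega
    rw [h1] at h
    unfold A at h
    by_cases h3 : r = 0
    · rw [if_pos h3] at h; omega
    · rw [if_neg h3] at h; omega
  · have h1 : B M s r' k = 2 * s + 1 := by
      rw [B, H, b3, if_neg (show r' ≠ 0 by omega), show M - r' = 1 by omega]; ring
    rw [h1] at h
    unfold A at h
    by_cases h3 : r = 0
    · rw [if_pos h3] at h; omega
    · rw [if_neg h3] at h
      have h2 : 1 * (s + 1) ≤ r * (s + 1) := Nat.mul_le_mul_right _ (by omega)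
      omega
  · rw [B_main M s r' κ k hr' b1] at h
    obtain ⟨f, rfl⟩ : ∃ f, M = r' + f := ⟨M - r', by omega⟩
    have e1 : r' + f - r' = f := by omega
    have e2 : (r' + f) * (s + 1) = r' * (s + 1) + f * (s + 1) := by ring
    rw [e1] at h
    rw [e2] at hA
    have hκ : s ≤ s * κ := Nat.le_mul_of_pos_right s b2
    have hκ2 : 2 ≤ κ → 2 * s ≤ s * κ := by
      intro h2; rw [mul_comm s κ]; exact Nat.mul_le_mul_right s h2
    by_cases h0 : r' = 0
    · rw [if_pos h0] at h
      have h2 := b6 (by omega)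
      have h3 := hκ2 (by omega)
      rw [h0] at h hA
      omega
    · rw [if_neg h0] at h
      -- `r' s² ≥ 3 r' s`
      have h4 : r' * (3 * s) ≤ r' * (s * s) := Nat.mul_le_mul_left r' hss
      have h5 : r' * (3 * s) = 3 * (r' * s) := by ring
      have h6 : r' * (s + 1) = r' * s + r' := by ring
      have h7 : 3 * r' ≤ r' * s := by rw [mul_comm 3 r']; exact Nat.mul_le_mul_left r' hs
      by_cases h8 : r' = 1
      · have h9 : 2 ≤ κ := by
          by_cases h10 : r' + 1 = r' + f
          · exact (b5 h10).2.2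
          · have := b6 (by omega); omega
        have h11 := hκ2 h9
        rw [h8] at h hA
        omega
      · have h12 : 2 * s ≤ r' * s := Nat.mul_le_mul_right s (by omega)
        omega

theorem B_lt (M s r k : ℕ) (hr : r ≤ M) (hk : k < s) (hM : 2 ≤ M) (hs : 3 ≤ s) :
    B M s r k < (M + 1) * s * s := by
  have hss := sq_ge s hs
  have e0 : (M + 1) * s * s = M * (s * s) + s * s := by ring
  rw [e0]
  have hM2 : 2 * (s * s) ≤ M * (s * s) := Nat.mul_le_mul_right _ hM
  rcases J_main M s r k hr hk hM hs with ⟨b1, b2, b3⟩ | ⟨b1, b2, b3⟩ | ⟨κ, b1, b2, b3, b4, b5, b6⟩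
  · have h1 : B M s r k = 0 := by
      rw [B, H, b3, b1]; simp; omega
    rw [h1]; omega
  · have h1 : B M s r k = 2 * s + 1 := by
      rw [B, H, b3, if_neg (show r ≠ 0 by omega), show M - r = 1 by omega]; ring
    rw [h1]; omega
  · rw [B_main M s r κ k hr b1]
    obtain ⟨f, rfl⟩ : ∃ f, M = r + f := ⟨M - r, by omega⟩
    have e1 : r + f - r = f := by omega
    have e2 : (r + f) * (s * s) = r * (s * s) + f * (s * s) := by ring
    rw [e1, e2]
    have hκ : s * κ ≤ s * s + s := by
      have : s * κ ≤ s * (s + 1) := Nat.mul_le_mul_left s b3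
      have e3 : s * (s + 1) = s * s + s := by ring
      omega
    have h4 : f * (3 * s) ≤ f * (s * s) := Nat.mul_le_mul_left f hss
    have h5 : f * (3 * s) = 3 * (f * s) := by ring
    have h6 : f * (s + 1) = f * s + f := by ring
    have h7 : 3 * f ≤ f * s := by rw [mul_comm 3 f]; exact Nat.mul_le_mul_left f hs
    have h8 : (if r = 0 then s else 0) ≤ s := by split_ifs <;> omega
    rcases Nat.lt_or_ge f 2 with h9 | h9
    · have h10 : (if r = 0 then s else 0) = 0 := if_neg (by omega)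
      rw [h10]
      rcases Nat.lt_or_ge f 1 with h11 | h11
      · have h12 : f = 0 := by omega
        have h13 := b4 (by omega)
        have h14 : s * (κ + 1) ≤ s * s := Nat.mul_le_mul_left s h13.2
        have e4 : s * (κ + 1) = s * κ + s := by ring
        rw [h12]
        omega
      · have h12 : f = 1 := by omega
        have h13 := b5 (by omega)
        have h14 : s * κ ≤ s * s := Nat.mul_le_mul_left s h13.2.1
        rw [h12]
        omega
    · have h10 : 2 * s ≤ f * s := Nat.mul_le_mul_right s h9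
      omega

/-- the labels of `(M + 1) K_{s,s}` -/
theorem construct (M s : ℕ) (hM : 2 ≤ M) (hs : 3 ≤ s) :
    ∃ (A' : Fin (M + 1) → Fin s → ℕ) (B' : Fin (M + 1) → Fin s → ℕ) (c : ℕ), 0 < c ∧
    (∀ i j, A' i j < (M + 1) * s * s) ∧ (∀ i k, B' i k < (M + 1) * s * s) ∧
    (∀ i j i' j', A' i j = A' i' j' → i = i' ∧ j = j') ∧
    (∀ i k i' k', B' i k = B' i' k' → i = i' ∧ k = k') ∧
    (∀ i j i' k, A' i j ≠ B' i' k) ∧
    (∀ i j k, c ≤ A' i j + B' i k ∧ A' i j + B' i k < c + (M + 1) * s * s) ∧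
    (∀ x, c ≤ x → x < c + (M + 1) * s * s → ∃ i j k, A' i j + B' i k = x) := by
  have hss := sq_ge s hs
  have hle : ∀ i : Fin (M + 1), (i : ℕ) ≤ M := fun i => Nat.lt_succ_iff.1 i.2
  refine ⟨fun i j => A s i j, fun i k => B M s i k, M * (s + 1) + 2 * s - 2, by omega, ?_, ?_, ?_, ?_,
    ?_, ?_, ?_⟩
  · intro i j
    have h1 := A_le M s i j (hle i) j.2 hs
    have e0 : (M + 1) * s * s = M * (s * s) + s * s := by ring
    have h2 : M * (3 * s) ≤ M * (s * s) := Nat.mul_le_mul_left M hss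
    have e1 : M * (3 * s) = 3 * (M * s) := by ring
    have e2 : M * (s + 1) = M * s + M := by ring
    have h3 : 3 * M ≤ M * s := by rw [mul_comm 3 M]; exact Nat.mul_le_mul_left M hs
    show A s i j < _
    omega
  · exact fun i k => B_lt M s i k (hle i) k.2 hM hs
  · intro i j i' j' h
    obtain ⟨h1, h2⟩ := A_inj s i j i' j' j.2 j'.2 hs h
    exact ⟨Fin.ext h1, Fin.ext h2⟩
  · intro i k i' k' h
    obtain ⟨h1, h2⟩ := B_inj M s i k i' k' (hle i) k.2 (hle i') k'.2 hM hs h
    exact ⟨Fin.ext h1, Fin.ext h2⟩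
  · exact fun i j i' k => A_ne_B M s i j i' k (hle i) j.2 (hle i') k.2 hM hs
  · intro i j k
    have h1 := sum_eq M s i j k hM hs (hle i)
    have h2 := J_lt M s i k (hle i) k.2 hM hs
    have h3 : s * (J M s i k + 1) ≤ s * ((M + 1) * s) := Nat.mul_le_mul_left s h2
    have e1 : s * (J M s i k + 1) = s * J M s i k + s := by ring
    have e2 : s * ((M + 1) * s) = (M + 1) * s * s := by ring
    have hj := j.2
    show _ ≤ A s i j + B M s i k ∧ A s i j + B M s i k < _
    omega
  · intro x hx hx'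
    obtain ⟨y, rfl⟩ : ∃ y, x = (M * (s + 1) + 2 * s - 2) + y := ⟨x - (M * (s + 1) + 2 * s - 2), by omega⟩
    have hy : y / s < (M + 1) * s := by
      rw [Nat.div_lt_iff_lt_mul (by omega)]
      omega
    obtain ⟨r, k, hr, hk, hJ⟩ := J_surj M s (y / s) hM hs hy
    refine ⟨⟨r, by omega⟩, ⟨y % s, Nat.mod_lt _ (by omega)⟩, ⟨k, hk⟩, ?_⟩
    show A s r (y % s) + B M s r k = _
    rw [sum_eq M s r (y % s) k hM hs hr, hJ]
    have := Nat.div_add_mod y s
    omega

end Pool.Agent.K9h99.SQ
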